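import Pool.Agent.Lib.MP_428550_an.Example

set_option autoImplicit false

open unitInterval Pool.Agent.Lib.MP_428550_an

namespace Pool.Agent.Results.MP_428550_an.Variation

/-- For `p ≥ 1` and `0 ≤ a ≤ p - 1`, the largest metric mean dimension of a self-map of `[0, 1]`
of finite `(p, a)`-variation is exactly `(p - a) / (p + 1)`. -/
theorem result (p a : ℝ) (hp : 1 ≤ p) (ha : 0 ≤ a) (hap : a ≤ p - 1) :
    (∀ φ : I → I, FiniteVar p a φ → mdimUpper φ ≤ (((p - a) / (p + 1) : ℝ) : EReal)) ∧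
    ∃ φ : I → I, Continuous φ ∧ FiniteVar p a φ ∧
      mdimLower φ = (((p - a) / (p + 1) : ℝ) : EReal) ∧
      mdimUpper φ = (((p - a) / (p + 1) : ℝ) : EReal) :=
  ⟨fun _ hφ => Up.upper hp ha hap hφ, Ex.exists_example hp ha hap⟩

end Pool.Agent.Results.MP_428550_an.Variation
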